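import Mathlib

set_option autoImplicit false

open MeasureTheory
open scoped ENNReal

namespace Pool.Agent.MP_c36293_nt.H93

open Classical in
/-- The discrepancy function: number of points in `B` minus `N` times the Lebesgue measure of `B`. -/
noncomputable def disc {d : ℕ} (P : Finset (Fin d → ℝ)) (B : Set (Fin d → ℝ)) : ℝ :=
  ((P.filter fun x => x ∈ B).card : ℝ) - (P.card : ℝ) * (volume B).toReal

/-- The box `[u, v)`. -/
def box {d : ℕ} (u v : Fin d → ℝ) : Set (Fin d → ℝ) :=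
  Set.univ.pi fun j => Set.Ico (u j) (v j)

/-- The periodic interval `I(a, b)`. -/
noncomputable def arc (a b : ℝ) : Set ℝ :=
  if a ≤ b then Set.Ico a b else Set.Ico 0 b ∪ Set.Ico a 1

/-- The periodic box `B(u, v)`. -/
noncomputable def pbox {d : ℕ} (u v : Fin d → ℝ) : Set (Fin d → ℝ) :=
  Set.univ.pi fun j => arc (u j) (v j)

/-- The extreme `L_p` discrepancy. -/
noncomputable def extr {d : ℕ} (p : ℝ) (P : Finset (Fin d → ℝ)) : ℝ≥0∞ :=
  (∫⁻ u in Set.Icc (0 : Fin d → ℝ) 1, ∫⁻ v in Set.Icc u 1,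
    ENNReal.ofReal (|disc P (box u v)| ^ p)) ^ (1 / p)

/-- The periodic `L_p` discrepancy. -/
noncomputable def per {d : ℕ} (p : ℝ) (P : Finset (Fin d → ℝ)) : ℝ≥0∞ :=
  (∫⁻ u in Set.Icc (0 : Fin d → ℝ) 1, ∫⁻ v in Set.Icc (0 : Fin d → ℝ) 1,
    ENNReal.ofReal (|disc P (pbox u v)| ^ p)) ^ (1 / p)

end Pool.Agent.MP_c36293_nt.H93
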