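import Pool.Agent.MP_c36293_nt.H93.Defs
import Pool.Agent.MP_c36293_nt.H70.Points

set_option autoImplicit false

open MeasureTheory Classical
open scoped ENNReal

namespace Pool.Agent.MP_c36293_nt.H93

/-- number of grid values in a set -/
noncomputable def ct (M : ℕ) (S : Set ℝ) : ℝ := ∑ b : Fin M, if (b : ℝ) / M ∈ S then 1 else 0

lemma ct_nonneg (M : ℕ) (S : Set ℝ) : 0 ≤ ct M S :=
  Finset.sum_nonneg fun a _ => by split_ifs <;> norm_num

lemma ct_le (M : ℕ) (S : Set ℝ) : ct M S ≤ M := by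
  unfold ct
  calc _ ≤ ∑ _a : Fin M, (1 : ℝ) := Finset.sum_le_sum fun a _ => by split_ifs <;> norm_num
    _ = M := by simp

lemma ct_Ico (M : ℕ) (a b : ℝ) : ct M (Set.Ico a b) = H70.cnt M a b := by
  unfold ct H70.cnt
  refine Finset.sum_congr rfl fun x _ => ?_
  simp only [Set.mem_Ico]

/-- length of a periodic interval -/
noncomputable def len (a b : ℝ) : ℝ := if a ≤ b then b - a else b + (1 - a)

lemma len_mem {a b : ℝ} (ha : 0 ≤ a) (ha' : a ≤ 1) (hb : 0 ≤ b) (hb' : b ≤ 1) :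
    0 ≤ len a b ∧ len a b ≤ 1 := by
  unfold len
  split_ifs <;> constructor <;> linarith

lemma volume_arc {a b : ℝ} (ha' : a ≤ 1) (hb : 0 ≤ b) :
    volume (arc a b) = ENNReal.ofReal (len a b) := by
  unfold arc len
  split_ifs with h
  · exact Real.volume_Ico
  · rw [measure_union _ measurableSet_Ico, Real.volume_Ico, Real.volume_Ico,
      ← ENNReal.ofReal_add (by linarith) (by linarith), sub_zero]
    rw [Set.disjoint_left]
    intro x h1 h2
    linarith [h1.2, h2.1]

lemma ct_arc (M : ℕ) (hM : 0 < M) {a b : ℝ} (ha : 0 ≤ a) (ha' : a ≤ 1) (hb : 0 ≤ b)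
    (hb' : b ≤ 1) : |ct M (arc a b) - M * len a b| ≤ 1 := by
  have hM' : (0 : ℝ) < M := by exact_mod_cast hM
  unfold arc len
  split_ifs with h
  · rw [ct_Ico]
    exact H70.cnt_approx M hM a b ha h hb'
  · have h1 := H70.cnt_approx M hM b a hb (not_le.1 h).le ha'
    have h2 : ct M (Set.Ico 0 b ∪ Set.Ico a 1) + ct M (Set.Ico b a) = M := by
      unfold ct
      rw [← Finset.sum_add_distrib]
      calc _ = ∑ _a : Fin M, (1 : ℝ) := Finset.sum_congr rfl fun x _ => ?_
        _ = M := by simp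
      have x0 : (0 : ℝ) ≤ (x : ℝ) / M := by positivity
      have x1 : (x : ℝ) / M < 1 := (div_lt_one hM').2 (by exact_mod_cast x.isLt)
      by_cases hx : (x : ℝ) / M ∈ Set.Ico b a
      · rw [if_pos hx, if_neg, zero_add]
        rintro (h3 | h3)
        · linarith [h3.2, hx.1]
        · linarith [h3.1, hx.2]
      · rw [if_neg hx, if_pos, add_zero]
        rw [Set.mem_Ico, not_and_or, not_le, not_lt] at hx
        rcases hx with hx | hx
        · exact Or.inl ⟨x0, hx⟩
        · exact Or.inr ⟨hx, x1⟩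
    rw [ct_Ico] at h2
    rw [abs_le] at h1 ⊢
    constructor <;> linarith [h1.1, h1.2]

lemma prod_approx {ι : Type} (s : Finset ι) (c l : ι → ℝ) (M : ℝ) (hM : 0 ≤ M)
    (hc : ∀ j, 0 ≤ c j ∧ c j ≤ M) (hl : ∀ j, 0 ≤ l j ∧ l j ≤ M) (h : ∀ j, |c j - l j| ≤ 1) :
    M * |∏ j ∈ s, c j - ∏ j ∈ s, l j| ≤ s.card * M ^ s.card := by
  induction s using Finset.induction_on with
  | empty => simp
  | insert a s ha ih =>
    rw [Finset.prod_insert ha, Finset.prod_insert ha, Finset.card_insert_of_notMem ha]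
    have h1 : 0 ≤ ∏ j ∈ s, c j := Finset.prod_nonneg fun j _ => (hc j).1
    have h2 : ∏ j ∈ s, c j ≤ M ^ s.card := by
      rw [← Finset.prod_const]
      exact Finset.prod_le_prod (fun j _ => (hc j).1) fun j _ => (hc j).2
    have e : c a * ∏ j ∈ s, c j - l a * ∏ j ∈ s, l j
        = (c a - l a) * ∏ j ∈ s, c j + l a * (∏ j ∈ s, c j - ∏ j ∈ s, l j) := by ring
    have h3 : |c a * ∏ j ∈ s, c j - l a * ∏ j ∈ s, l j|
        ≤ M ^ s.card + M * |∏ j ∈ s, c j - ∏ j ∈ s, l j| := by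
      rw [e]
      refine (abs_add_le _ _).trans (add_le_add ?_ ?_)
      · rw [abs_mul, abs_of_nonneg h1]
        exact (mul_le_mul (h a) h2 h1 zero_le_one).trans (one_mul _).le
      · rw [abs_mul, abs_of_nonneg (hl a).1]
        exact mul_le_mul_of_nonneg_right (hl a).2 (abs_nonneg _)
    have h4 := mul_le_mul_of_nonneg_left (h3.trans (add_le_add le_rfl ih)) hM
    push_cast
    rw [pow_succ]
    linarith

lemma sum_pi {d M : ℕ} (q : Fin d → Fin M → Prop) :
    (∑ a : Fin d → Fin M, if ∀ j, q j (a j) then (1 : ℝ) else 0)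
      = ∏ j, ∑ b : Fin M, if q j b then (1 : ℝ) else 0 := by
  rw [Finset.prod_univ_sum, Fintype.piFinset_univ]
  refine Finset.sum_congr rfl fun a _ => ?_
  rw [Finset.prod_boole]
  simp

/-- The grid with the first `k` layers squeezed in the second coordinate. -/
noncomputable def pt (n M k : ℕ) (a : Fin (n + 2) → Fin M) : Fin (n + 2) → ℝ :=
  fun j => if j = 1 ∧ (a 0 : ℕ) < k then (a j : ℝ) / (4 * M) else (a j : ℝ) / M

lemma pt_zero (n M k : ℕ) (a : Fin (n + 2) → Fin M) : pt n M k a 0 = (a 0 : ℝ) / M := by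
  unfold pt
  rw [if_neg]
  simp

lemma pt_injective (n M k : ℕ) (hM : 0 < M) : Function.Injective (pt n M k) := by
  intro a b h
  have hM' : (0 : ℝ) < M := by exact_mod_cast hM
  have h0 := congrFun h 0
  rw [pt_zero, pt_zero, div_left_inj' hM'.ne'] at h0
  have h1 : a 0 = b 0 := Fin.ext (by exact_mod_cast h0)
  funext j
  have h2 := congrFun h j
  simp only [pt, h1] at h2
  split_ifs at h2
  · rw [div_left_inj' (by positivity)] at h2
    exact Fin.ext (by exact_mod_cast h2)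
  · rw [div_left_inj' hM'.ne'] at h2
    exact Fin.ext (by exact_mod_cast h2)

lemma pt_mem (n M k : ℕ) (hM : 0 < M) (a : Fin (n + 2) → Fin M) (j : Fin (n + 2)) :
    0 ≤ pt n M k a j ∧ pt n M k a j < 1 := by
  have hM' : (0 : ℝ) < M := by exact_mod_cast hM
  have ha : ((a j : ℕ) : ℝ) < M := by exact_mod_cast (a j).isLt
  unfold pt
  split_ifs
  · exact ⟨by positivity, (div_lt_one (by positivity)).2 (by linarith)⟩
  · exact ⟨by positivity, (div_lt_one hM').2 ha⟩

/-- The point set. -/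
noncomputable def pts (n M k : ℕ) : Finset (Fin (n + 2) → ℝ) := Finset.univ.image (pt n M k)

lemma card_pts (n M k : ℕ) (hM : 0 < M) : ((pts n M k).card : ℝ) = (M : ℝ) ^ (n + 2) := by
  rw [pts, Finset.card_image_of_injective _ (pt_injective n M k hM)]
  simp

lemma disc_pbox (n M k : ℕ) (hM : 0 < M) {u v : Fin (n + 2) → ℝ}
    (hu : u ∈ Set.Icc (0 : Fin (n + 2) → ℝ) 1) (hv : v ∈ Set.Icc (0 : Fin (n + 2) → ℝ) 1) :
    disc (pts n M k) (pbox u v)
      = (∑ a : Fin (n + 2) → Fin M, if pt n M k a ∈ pbox u v then (1 : ℝ) else 0)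
        - ∏ j, (M * len (u j) (v j)) := by
  unfold disc
  congr 1
  · rw [pts, Finset.filter_image, Finset.card_image_of_injective _ (pt_injective n M k hM),
      Finset.sum_boole]
  · rw [card_pts n M k hM, pbox, volume_pi_pi, ENNReal.toReal_prod, Finset.prod_mul_distrib,
      Finset.prod_const, Finset.card_univ, Fintype.card_fin]
    congr 1
    refine Finset.prod_congr rfl fun j _ => ?_
    rw [volume_arc (hu.2 j) (hv.1 j),
      ENNReal.toReal_ofReal (len_mem (hu.1 j) (hu.2 j) (hv.1 j) (hv.2 j)).1]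

lemma grid_bound (n M : ℕ) (hM : 0 < M) {u v : Fin (n + 2) → ℝ}
    (hu : u ∈ Set.Icc (0 : Fin (n + 2) → ℝ) 1) (hv : v ∈ Set.Icc (0 : Fin (n + 2) → ℝ) 1) :
    |(∑ a : Fin (n + 2) → Fin M, if ∀ j, (a j : ℝ) / M ∈ arc (u j) (v j) then (1 : ℝ) else 0)
      - ∏ j, (M * len (u j) (v j))| ≤ (n + 2) * (M : ℝ) ^ (n + 1) := by
  have hM' : (0 : ℝ) < M := by exact_mod_cast hM
  have h := prod_approx Finset.univ (fun j => ct M (arc (u j) (v j)))
    (fun j => M * len (u j) (v j)) M hM'.le (fun j => ⟨ct_nonneg _ _, ct_le _ _⟩)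
    (fun j => by
      have := len_mem (hu.1 j) (hu.2 j) (hv.1 j) (hv.2 j)
      constructor <;> nlinarith [this.1, this.2])
    (fun j => ct_arc M hM (hu.1 j) (hu.2 j) (hv.1 j) (hv.2 j))
  rw [Finset.card_univ, Fintype.card_fin] at h
  have e : (∑ a : Fin (n + 2) → Fin M,
      if ∀ j, (a j : ℝ) / M ∈ arc (u j) (v j) then (1 : ℝ) else 0)
      = ∏ j, ct M (arc (u j) (v j)) := by
    unfold ct
    convert sum_pi (d := n + 2) (M := M) fun j b => (b : ℝ) / M ∈ arc (u j) (v j)
  refine le_of_mul_le_mul_left ?_ hM'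
  rw [e]
  refine h.trans (le_of_eq ?_)
  push_cast
  ring

lemma layer_count (n M k : ℕ) (hk : k ≤ M) (S : Fin (n + 2) → Set ℝ) :
    (∑ a : Fin (n + 2) → Fin M,
      if (a 0 : ℕ) < k ∧ ∀ j : Fin (n + 1), (a j.succ : ℝ) / M ∈ S j.succ then (1 : ℝ) else 0)
      = k * ∏ j : Fin (n + 1), ct M (S j.succ) := by
  have e := sum_pi (d := n + 2) (M := M)
    fun j b => if j = 0 then (b : ℕ) < k else (b : ℝ) / M ∈ S j
  rw [Fin.prod_univ_succ] at e
  have e1 := H70.sum_lt M k hk
  simp only [Fin.forall_fin_succ (n := n + 1), if_true, Fin.succ_ne_zero, if_false] at e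
  convert e using 1
  · congr 1
    convert e1.symm

lemma extr_bound (n M k : ℕ) (hM : 0 < M) (hk : k ≤ M) {u v : Fin (n + 2) → ℝ}
    (hu : u ∈ Set.Icc (0 : Fin (n + 2) → ℝ) 1) (hv : v ∈ Set.Icc u 1) :
    |disc (pts n M k) (box u v)|
      ≤ ((n + 2) + if u 0 < (k : ℝ) / M then (k : ℝ) else 0) * (M : ℝ) ^ (n + 1) := by
  have hM' : (0 : ℝ) < M := by exact_mod_cast hM
  have hv' : v ∈ Set.Icc (0 : Fin (n + 2) → ℝ) 1 := ⟨hu.1.trans hv.1, hv.2⟩
  have harc : ∀ j, arc (u j) (v j) = Set.Ico (u j) (v j) := fun j => if_pos (hv.1 j)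
  have hb : box u v = pbox u v := by simp only [box, pbox, harc]
  have hg := grid_bound n M hM hu hv'
  have hd : |(∑ a : Fin (n + 2) → Fin M, if pt n M k a ∈ pbox u v then (1 : ℝ) else 0)
      - (∑ a : Fin (n + 2) → Fin M, if ∀ j, (a j : ℝ) / M ∈ arc (u j) (v j) then (1 : ℝ) else 0)|
      ≤ (if u 0 < (k : ℝ) / M then (k : ℝ) else 0) * (M : ℝ) ^ (n + 1) := by
    rw [← Finset.sum_sub_distrib]
    refine (Finset.abs_sum_le_sum_abs _ _).trans ?_
    have key : ∀ a : Fin (n + 2) → Fin M, |(if pt n M k a ∈ pbox u v then (1 : ℝ) else 0)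
        - (if ∀ j, (a j : ℝ) / M ∈ arc (u j) (v j) then (1 : ℝ) else 0)|
        ≤ (if u 0 < (k : ℝ) / M then (1 : ℝ) else 0) * (if (a 0 : ℕ) < k ∧
          ∀ j : Fin (n + 1), (a j.succ : ℝ) / M ∈ (Set.univ : Set ℝ) then (1 : ℝ) else 0) := by
      intro a
      by_cases hak : (a 0 : ℕ) < k
      · by_cases hx : u 0 < (k : ℝ) / M
        · simp only [hak, hx, Set.mem_univ, implies_true, and_self, if_true, mul_one]
          split_ifs <;> norm_num
        · have h1 : (a 0 : ℝ) / M ∉ arc (u 0) (v 0) := by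
            rw [harc]
            intro h2
            exact hx (h2.1.trans_lt (div_lt_div_of_pos_right (by exact_mod_cast hak) hM'))
          rw [if_neg hx, if_neg, if_neg (fun h => h1 (h 0))]
          · simp
          · intro h
            have := h 0 (Set.mem_univ _)
            rw [pt_zero] at this
            exact h1 this
      · have h1 : pt n M k a ∈ pbox u v ↔ ∀ j, (a j : ℝ) / M ∈ arc (u j) (v j) := by
          simp [pbox, pt, hak]
        simp only [h1, sub_self, abs_zero]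
        split_ifs <;> norm_num
    refine (Finset.sum_le_sum fun a _ => key a).trans ?_
    rw [← Finset.mul_sum]
    have e := layer_count n M k hk fun _ => Set.univ
    have e2 : ct M Set.univ = M := by simp [ct]
    simp only [e2, Finset.prod_const, Finset.card_univ, Fintype.card_fin] at e
    have e3 : (∑ a : Fin (n + 2) → Fin M, if (a 0 : ℕ) < k ∧
          ∀ j : Fin (n + 1), (a j.succ : ℝ) / M ∈ (Set.univ : Set ℝ) then (1 : ℝ) else 0)
        = k * (M : ℝ) ^ (n + 1) := by convert e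
    rw [e3]
    split_ifs <;> simp
  rw [hb, disc_pbox n M k hM hu hv', add_mul]
  exact (abs_sub_le _ _ _).trans ((add_le_add hd hg).trans (add_comm _ _).le)

/-- lower corner of the set of first parameters -/
noncomputable def lo1 (n : ℕ) : Fin (n + 2) → ℝ := fun j => if j = 0 then 3 / 4 else 1 / 4

/-- lower corner of the set of second parameters -/
noncomputable def lo2 (n : ℕ) : Fin (n + 2) → ℝ := fun j => if j = 0 then 1 / 4 else 3 / 4

lemma per_bound (n M k : ℕ) (hM : 8 ≤ M) (hk : 4 * k ≤ M) {u v : Fin (n + 2) → ℝ}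
    (hu : u ∈ Set.Icc (lo1 n) fun j => lo1 n j + 1 / 4)
    (hv : v ∈ Set.Icc (lo2 n) fun j => lo2 n j + 1 / 4)
    (hu' : u ∈ Set.Icc (0 : Fin (n + 2) → ℝ) 1) (hv' : v ∈ Set.Icc (0 : Fin (n + 2) → ℝ) 1) :
    (k / 8 ^ (n + 1) - (n + 2)) * (M : ℝ) ^ (n + 1) ≤ |disc (pts n M k) (pbox u v)| := by
  have hM0 : 0 < M := by omega
  have hM' : (8 : ℝ) ≤ M := by exact_mod_cast hM
  have hk' : 4 * (k : ℝ) ≤ M := by exact_mod_cast hk
  have u0 : 3 / 4 ≤ u 0 := by simpa [lo1] using hu.1 0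
  have v0 : 1 / 4 ≤ v 0 := by have := hv.1 0; simp only [lo2, if_true] at this; exact this
  have v0' : v 0 ≤ 1 / 2 := by have := hv.2 0; simp only [lo2, if_true] at this; linarith
  have uj : ∀ j : Fin (n + 1), 1 / 4 ≤ u j.succ ∧ u j.succ ≤ 1 / 2 := by
    intro j
    have h1 := hu.1 j.succ
    have h2 := hu.2 j.succ
    simp only [lo1, Fin.succ_ne_zero, if_false] at h1 h2
    constructor <;> linarith
  have vj : ∀ j : Fin (n + 1), 3 / 4 ≤ v j.succ := by
    intro j
    have h1 := hv.1 j.succ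
    simpa only [lo2, Fin.succ_ne_zero, if_false] using h1
  have hg := grid_bound n M hM0 hu' hv'
  have key : ∀ a : Fin (n + 2) → Fin M, (if pt n M k a ∈ pbox u v then (1 : ℝ) else 0)
      = (if ∀ j, (a j : ℝ) / M ∈ arc (u j) (v j) then (1 : ℝ) else 0) - (if (a 0 : ℕ) < k ∧
          ∀ j : Fin (n + 1), (a j.succ : ℝ) / M ∈ arc (u j.succ) (v j.succ) then (1 : ℝ) else 0) := by
    intro a
    by_cases hak : (a 0 : ℕ) < k
    · have h0 : (a 0 : ℝ) / M ∈ arc (u 0) (v 0) := by
        rw [arc, if_neg (by linarith)]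
        refine Or.inl ⟨by positivity, ?_⟩
        rw [div_lt_iff₀ (by linarith)]
        have : ((a 0 : ℕ) : ℝ) < k := by exact_mod_cast hak
        nlinarith
      have h1 : pt n M k a ∉ pbox u v := by
        intro h
        have h2 : pt n M k a 1 ∈ arc (u 1) (v 1) := h 1 (Set.mem_univ _)
        have h3 := uj 0
        have h4 := vj 0
        rw [Fin.succ_zero_eq_one] at h3 h4
        rw [arc, if_pos (by linarith), pt, if_pos ⟨rfl, hak⟩] at h2
        have h5 := h2.1
        have hb : ((a 1 : ℕ) : ℝ) < M := by exact_mod_cast (a 1).isLt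
        rw [le_div_iff₀ (by positivity)] at h5
        nlinarith
      rw [if_neg h1]
      simp only [Fin.forall_fin_succ (n := n + 1), h0, hak, true_and, sub_self]
    · have h1 : pt n M k a ∈ pbox u v ↔ ∀ j, (a j : ℝ) / M ∈ arc (u j) (v j) := by
        simp [pbox, pt, hak]
      simp only [h1, hak, false_and, if_false, sub_zero]
  have e := layer_count n M k (by omega) fun j => arc (u j) (v j)
  have hc : ∀ j : Fin (n + 1), (M : ℝ) / 8 ≤ ct M (arc (u j.succ) (v j.succ)) := by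
    intro j
    have h1 := ct_arc M hM0 (hu'.1 j.succ) (hu'.2 j.succ) (hv'.1 j.succ) (hv'.2 j.succ)
    have h2 := uj j
    have h3 := vj j
    rw [len, if_pos (by linarith), abs_le] at h1
    nlinarith [h1.1]
  have hp : ((M : ℝ) / 8) ^ (n + 1) ≤ ∏ j : Fin (n + 1), ct M (arc (u j.succ) (v j.succ)) := by
    calc _ = ∏ _j : Fin (n + 1), (M : ℝ) / 8 := by
          rw [Finset.prod_const, Finset.card_univ, Fintype.card_fin]
      _ ≤ _ := Finset.prod_le_prod (fun j _ => by positivity) fun j _ => hc j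
  rw [disc_pbox n M k hM0 hu' hv', Finset.sum_congr rfl fun a _ => key a, Finset.sum_sub_distrib, e,
    abs_sub_comm]
  refine le_trans ?_ (le_abs_self _)
  have h5 := mul_le_mul_of_nonneg_left hp (Nat.cast_nonneg (α := ℝ) k)
  rw [div_pow] at h5
  have h6 := (abs_le.1 hg).2
  have h7 : ((k : ℝ) / 8 ^ (n + 1) - (n + 2)) * (M : ℝ) ^ (n + 1)
      = k * ((M : ℝ) ^ (n + 1) / 8 ^ (n + 1)) - (n + 2) * (M : ℝ) ^ (n + 1) := by ring
  linarith

end Pool.Agent.MP_c36293_nt.H93
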