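import Pool.Agent.MP_c36293_nt.H93.Grid

set_option autoImplicit false

open MeasureTheory Classical
open scoped ENNReal NNReal

namespace Pool.Agent.MP_c36293_nt.H93

lemma volume_cube (d : ℕ) : volume (Set.Icc (0 : Fin d → ℝ) 1) = 1 := by
  rw [Real.volume_Icc_pi]
  simp

lemma upper_lint {n : ℕ} (F : (Fin (n + 2) → ℝ) → (Fin (n + 2) → ℝ) → ℝ≥0∞) (A B : ℝ≥0∞) (t : ℝ)
    (h : ∀ u ∈ Set.Icc (0 : Fin (n + 2) → ℝ) 1, ∀ v ∈ Set.Icc u 1,
      F u v ≤ if u 0 < t then B else A) :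
    ∫⁻ u in Set.Icc (0 : Fin (n + 2) → ℝ) 1, ∫⁻ v in Set.Icc u 1, F u v
      ≤ A + B * ENNReal.ofReal t := by
  set S : Set (Fin (n + 2) → ℝ) := Set.Icc 0 fun j => if j = 0 then t else 1 with hS
  have hvS : volume S = ENNReal.ofReal t := by
    rw [hS, Real.volume_Icc_pi, Fin.prod_univ_succ]
    simp
  have hin : ∀ u ∈ Set.Icc (0 : Fin (n + 2) → ℝ) 1,
      ∫⁻ v in Set.Icc u 1, F u v ≤ A + S.indicator (fun _ => B) u := by
    intro u hu
    refine (setLIntegral_mono' measurableSet_Icc (h u hu)).trans ?_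
    rw [setLIntegral_const]
    have h1 : volume (Set.Icc u 1) ≤ 1 :=
      (measure_mono (Set.Icc_subset_Icc_left hu.1)).trans (volume_cube _).le
    refine (mul_le_of_le_one_right' h1).trans ?_
    split_ifs with ht
    · rw [Set.indicator_of_mem]
      · exact le_add_self
      · refine ⟨hu.1, fun j => ?_⟩
        by_cases hj : j = 0
        · simp only [hj, if_true]
          exact ht.le
        · simp only [hj, if_false]
          exact hu.2 j
    · exact le_self_add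
  refine (setLIntegral_mono' measurableSet_Icc hin).trans ?_
  rw [lintegral_add_left measurable_const, setLIntegral_const, volume_cube, mul_one]
  refine add_le_add le_rfl ((setLIntegral_le_lintegral _ _).trans ?_)
  rw [lintegral_indicator_const measurableSet_Icc, hvS]

lemma lower_lint {d : ℕ} (F : (Fin d → ℝ) → (Fin d → ℝ) → ℝ≥0∞) (L : ℝ≥0∞) (a b : Fin d → ℝ)
    (ha : ∀ j, 0 ≤ a j ∧ a j ≤ 3 / 4) (hb : ∀ j, 0 ≤ b j ∧ b j ≤ 3 / 4)
    (h : ∀ u ∈ Set.Icc a fun j => a j + 1 / 4, ∀ v ∈ Set.Icc b fun j => b j + 1 / 4,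
      u ∈ Set.Icc (0 : Fin d → ℝ) 1 → v ∈ Set.Icc (0 : Fin d → ℝ) 1 → L ≤ F u v) :
    L * ENNReal.ofReal ((1 / 16) ^ d)
      ≤ ∫⁻ u in Set.Icc (0 : Fin d → ℝ) 1, ∫⁻ v in Set.Icc (0 : Fin d → ℝ) 1, F u v := by
  have hsub : ∀ c : Fin d → ℝ, (∀ j, 0 ≤ c j ∧ c j ≤ 3 / 4) →
      (Set.Icc c fun j => c j + 1 / 4) ⊆ Set.Icc (0 : Fin d → ℝ) 1 := by
    intro c hc
    refine Set.Icc_subset_Icc (fun j => (hc j).1) fun j => ?_
    have := (hc j).2
    simp only [Pi.one_apply]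
    linarith
  have hvol : ∀ c : Fin d → ℝ,
      volume (Set.Icc c fun j => c j + 1 / 4) = ENNReal.ofReal ((1 / 4) ^ d) := by
    intro c
    rw [Real.volume_Icc_pi, ENNReal.ofReal_pow (by norm_num)]
    simp only [add_sub_cancel_left, Finset.prod_const, Finset.card_univ, Fintype.card_fin]
  refine le_trans ?_ (lintegral_mono_set (hsub a ha))
  have hin : ∀ u ∈ Set.Icc a fun j => a j + 1 / 4, L * ENNReal.ofReal ((1 / 4) ^ d)
      ≤ ∫⁻ v in Set.Icc (0 : Fin d → ℝ) 1, F u v := by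
    intro u hu
    refine le_trans ?_ (lintegral_mono_set (hsub b hb))
    rw [← hvol b, ← setLIntegral_const]
    exact setLIntegral_mono' measurableSet_Icc fun v hv => h u hu v hv (hsub a ha hu) (hsub b hb hv)
  refine le_trans (le_of_eq ?_) (setLIntegral_mono' measurableSet_Icc hin)
  rw [setLIntegral_const, hvol, mul_assoc, ← ENNReal.ofReal_mul (by positivity), ← mul_pow]
  norm_num

lemma per_ne_top {d : ℕ} {p : ℝ} (hp : 1 ≤ p) (P : Finset (Fin d → ℝ)) : per p P ≠ ⊤ := by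
  refine ENNReal.rpow_ne_top_of_nonneg (by positivity) (ne_top_of_le_ne_top
    (b := ENNReal.ofReal ((P.card : ℝ) ^ p)) ENNReal.ofReal_ne_top ?_)
  have hin : ∀ u ∈ Set.Icc (0 : Fin d → ℝ) 1, ∫⁻ v in Set.Icc (0 : Fin d → ℝ) 1,
      ENNReal.ofReal (|disc P (pbox u v)| ^ p) ≤ ENNReal.ofReal ((P.card : ℝ) ^ p) := by
    intro u hu
    have h : ∀ v ∈ Set.Icc (0 : Fin d → ℝ) 1,
        ENNReal.ofReal (|disc P (pbox u v)| ^ p) ≤ ENNReal.ofReal ((P.card : ℝ) ^ p) := by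
      intro v hv
      refine ENNReal.ofReal_le_ofReal (Real.rpow_le_rpow (abs_nonneg _) ?_ (by linarith))
      have h1 : (volume (pbox u v)).toReal ≤ 1 := by
        rw [pbox, volume_pi_pi, ENNReal.toReal_prod]
        refine Finset.prod_le_one (fun j _ => ENNReal.toReal_nonneg) fun j _ => ?_
        have := len_mem (hu.1 j) (hu.2 j) (hv.1 j) (hv.2 j)
        rw [volume_arc (hu.2 j) (hv.1 j), ENNReal.toReal_ofReal this.1]
        exact this.2
      have h2 : ((P.filter fun x => x ∈ pbox u v).card : ℝ) ≤ P.card := by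
        exact_mod_cast Finset.card_filter_le _ _
      have h3 : (0 : ℝ) ≤ (P.filter fun x => x ∈ pbox u v).card := Nat.cast_nonneg _
      have h4 : (0 : ℝ) ≤ P.card := Nat.cast_nonneg _
      have h5 := mul_le_mul_of_nonneg_left h1 h4
      have h6 := mul_nonneg h4 (ENNReal.toReal_nonneg (a := volume (pbox u v)))
      rw [disc, abs_le]
      constructor <;> linarith
    refine (setLIntegral_mono' measurableSet_Icc h).trans ?_
    rw [setLIntegral_const, volume_cube, mul_one]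
  refine (setLIntegral_mono' measurableSet_Icc hin).trans ?_
  rw [setLIntegral_const, volume_cube, mul_one]

lemma numeric (d E C p W k : ℝ) (hd : 0 ≤ d) (hE : 1 ≤ E) (hC : 0 ≤ C) (hp : 1 ≤ p) (hW : 0 < W)
    (q : ℝ) (hq : 0 < q) (hk1 : 1 ≤ k) (hk2 : 2 * d * E ≤ k)
    (hk3 : C ^ p * (d ^ p + 2 ^ p) < k * ((1 / (2 * E)) ^ p * q)) :
    C ^ p * ((d * W) ^ p + ((d + k) * W) ^ p * (1 / k)) < ((k / E - d) * W) ^ p * q := by
  have hk0 : 0 < k := by linarith
  have hE0 : 0 < E := by linarith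
  have hZ : 0 < (k * W) ^ p := Real.rpow_pos_of_pos (mul_pos hk0 hW) p
  have h1 : (d * W) ^ p ≤ d ^ p * (k * W) ^ p * (1 / k) := by
    have a1 : k ≤ k ^ p := by
      conv_lhs => rw [← Real.rpow_one k]
      exact Real.rpow_le_rpow_of_exponent_le hk1 hp
    rw [Real.mul_rpow hd hW.le, Real.mul_rpow hk0.le hW.le, mul_one_div, le_div_iff₀ hk0]
    have a2 : 0 ≤ d ^ p * W ^ p := mul_nonneg (Real.rpow_nonneg hd p) (Real.rpow_nonneg hW.le p)
    nlinarith
  have h2 : ((d + k) * W) ^ p ≤ 2 ^ p * (k * W) ^ p := by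
    rw [← Real.mul_rpow (by norm_num) (mul_pos hk0 hW).le]
    refine Real.rpow_le_rpow (by positivity) ?_ (by linarith)
    have : d ≤ k := by nlinarith
    nlinarith
  have h3 : (1 / (2 * E)) ^ p * (k * W) ^ p ≤ ((k / E - d) * W) ^ p := by
    rw [← Real.mul_rpow (by positivity) (mul_pos hk0 hW).le]
    refine Real.rpow_le_rpow (by positivity) ?_ (by linarith)
    rw [← mul_assoc]
    refine mul_le_mul_of_nonneg_right ?_ hW.le
    have e : k / E - 1 / (2 * E) * k = k / (2 * E) := by field_simp; ring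
    have : d ≤ k / (2 * E) := by rw [le_div_iff₀ (by positivity)]; linarith
    linarith
  have hCp : 0 ≤ C ^ p := Real.rpow_nonneg hC p
  have h4 : C ^ p * ((d * W) ^ p + ((d + k) * W) ^ p * (1 / k))
      ≤ C ^ p * (d ^ p + 2 ^ p) * ((k * W) ^ p * (1 / k)) := by
    rw [mul_assoc]
    refine mul_le_mul_of_nonneg_left ?_ hCp
    have := mul_le_mul_of_nonneg_right h2 (one_div_pos.2 hk0).le
    linarith
  have h5 := mul_lt_mul_of_pos_right hk3 (mul_pos hZ (one_div_pos.2 hk0))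
  have h6 : k * ((1 / (2 * E)) ^ p * q) * ((k * W) ^ p * (1 / k))
      = (1 / (2 * E)) ^ p * (k * W) ^ p * q := by field_simp
  have h7 := mul_le_mul_of_nonneg_right h3 hq.le
  linarith

theorem unbounded (n : ℕ) (p : ℝ) (hp : 1 ≤ p) (C : ℝ≥0) :
    ∃ M k : ℕ, 0 < M ∧ (C : ℝ≥0∞) * extr p (pts n M k) < per p (pts n M k) := by
  have hp0 : 0 < p := by linarith
  have hE : (1 : ℝ) ≤ 8 ^ (n + 1) := one_le_pow₀ (by norm_num)
  have hq : (0 : ℝ) < (1 / 16) ^ (n + 2) := by positivity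
  have hc : (0 : ℝ) < (1 / (2 * 8 ^ (n + 1))) ^ p * (1 / 16) ^ (n + 2) :=
    mul_pos (Real.rpow_pos_of_pos (by positivity) p) hq
  obtain ⟨k, hk⟩ := exists_nat_gt (max (max 4 (2 * ((n : ℝ) + 2) * 8 ^ (n + 1)))
    ((C : ℝ) ^ p * (((n : ℝ) + 2) ^ p + 2 ^ p) / ((1 / (2 * 8 ^ (n + 1))) ^ p * (1 / 16) ^ (n + 2))))
  rw [max_lt_iff, max_lt_iff, div_lt_iff₀ hc] at hk
  obtain ⟨⟨hk1, hk2⟩, hk3⟩ := hk
  have hk4 : 4 < k := by exact_mod_cast hk1
  have hM : 8 ≤ k * k := by nlinarith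
  have hkM : 4 * k ≤ k * k := by nlinarith
  have hk0 : (0 : ℝ) < k := by linarith
  refine ⟨k * k, k, by omega, ?_⟩
  set W : ℝ := ((k * k : ℕ) : ℝ) ^ (n + 1) with hW
  have hW0 : 0 < W := by positivity
  have hnum := numeric ((n : ℝ) + 2) (8 ^ (n + 1)) C p W k (by positivity) hE C.2 hp hW0 _ hq
    (by linarith) hk2.le hk3
  have ht : (k : ℝ) / ((k * k : ℕ) : ℝ) = 1 / k := by push_cast; field_simp
  have hup := upper_lint (fun u v => ENNReal.ofReal (|disc (pts n (k * k) k) (box u v)| ^ p))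
    (ENNReal.ofReal ((((n : ℝ) + 2) * W) ^ p)) (ENNReal.ofReal ((((n : ℝ) + 2 + k) * W) ^ p))
    (1 / k) (fun u hu v hv => by
      have h := extr_bound n (k * k) k (by omega) (by omega) hu hv
      rw [ht, ← hW] at h
      split_ifs at h ⊢
      · exact ENNReal.ofReal_le_ofReal (Real.rpow_le_rpow (abs_nonneg _) h hp0.le)
      · rw [add_zero] at h
        exact ENNReal.ofReal_le_ofReal (Real.rpow_le_rpow (abs_nonneg _) h hp0.le))
  have hpos : 0 ≤ (k : ℝ) / 8 ^ (n + 1) - (n + 2) := by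
    rw [sub_nonneg, le_div_iff₀ (by positivity)]
    nlinarith
  have hlo := lower_lint (fun u v => ENNReal.ofReal (|disc (pts n (k * k) k) (pbox u v)| ^ p))
    (ENNReal.ofReal ((((k : ℝ) / 8 ^ (n + 1) - (n + 2)) * W) ^ p)) (lo1 n) (lo2 n)
    (fun j => by unfold lo1; split_ifs <;> norm_num) (fun j => by unfold lo2; split_ifs <;> norm_num)
    (fun u hu v hv hu' hv' => ENNReal.ofReal_le_ofReal (Real.rpow_le_rpow (by positivity)
      (per_bound n (k * k) k hM hkM hu hv hu' hv') hp0.le))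
  rw [← ENNReal.ofReal_mul (by positivity), ← ENNReal.ofReal_add (by positivity) (by positivity)]
    at hup
  rw [← ENNReal.ofReal_mul (by positivity)] at hlo
  have hpp : 0 < 1 / p := by positivity
  have hC : (C : ℝ≥0∞) = ENNReal.ofReal ((C : ℝ) ^ p) ^ (1 / p) := by
    rw [← ENNReal.ofReal_rpow_of_nonneg C.coe_nonneg hp0.le, ← ENNReal.rpow_mul, mul_one_div_cancel hp0.ne',
      ENNReal.rpow_one]
    exact ENNReal.ofReal_coe_nnreal.symm
  refine lt_of_lt_of_le ?_ (ENNReal.rpow_le_rpow hlo hpp.le)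
  refine lt_of_le_of_lt (mul_le_mul_right (ENNReal.rpow_le_rpow hup hpp.le) _) ?_
  rw [hC, ← ENNReal.mul_rpow_of_nonneg _ _ hpp.le, ← ENNReal.ofReal_mul (by positivity)]
  refine ENNReal.rpow_lt_rpow ?_ hpp
  exact (ENNReal.ofReal_lt_ofReal_iff_of_nonneg (by positivity)).2 hnum

end Pool.Agent.MP_c36293_nt.H93
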